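import Pool.Agent.K3h88.VR.Stm

/-! VR brick HOM for helper88: linear maps which send `V` into `W` -/

set_option autoImplicit false

namespace Pool.Agent.K3h68.VR

open Pool.Agent.K3h88.VR

/-- the linear maps which send `V` into `W`, by their restrictions to `V` and to a complement -/
noncomputable def homEquiv {n m : ℕ} {V V' : Submodule (ZMod 2) (E n)} (h : IsCompl V V')
    (W : Submodule (ZMod 2) (E m)) :
    {φ : E n →ₗ[ZMod 2] E m // V.map φ ≤ W} ≃ (V →ₗ[ZMod 2] W) × (V' →ₗ[ZMod 2] E m) where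
  toFun φ := (LinearMap.codRestrict W (φ.1.comp V.subtype) fun v =>
    φ.2 (Submodule.mem_map_of_mem v.2), φ.1.comp V'.subtype)
  invFun ab := ⟨LinearMap.ofIsCompl h (W.subtype.comp ab.1) ab.2, by
    rw [Submodule.map_le_iff_le_comap]
    intro v hv
    rw [Submodule.mem_comap]
    have h1 := LinearMap.ofIsCompl_left_apply (φ := W.subtype.comp ab.1) (ψ := ab.2) h ⟨v, hv⟩
    change LinearMap.ofIsCompl h (W.subtype.comp ab.1) ab.2 v ∈ W
    rw [show LinearMap.ofIsCompl h (W.subtype.comp ab.1) ab.2 v = (W.subtype.comp ab.1) ⟨v, hv⟩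
      from h1]
    exact (ab.1 ⟨v, hv⟩).2⟩
  left_inv φ := by
    apply Subtype.ext
    exact LinearMap.ofIsCompl_eq h (fun _ => rfl) (fun _ => rfl)
  right_inv ab := by
    refine Prod.ext ?_ ?_
    · ext1 v
      apply Subtype.ext
      exact LinearMap.ofIsCompl_left_apply h v
    · ext1 v
      exact LinearMap.ofIsCompl_right_apply h v

theorem t_HOM : S_HOM := by
  intro n m d V W hV
  obtain ⟨V', h⟩ := Submodule.exists_isCompl V
  have h1 := Submodule.finrank_add_eq_of_isCompl h
  rw [hV, Module.finrank_fin_fun] at h1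
  have h2 : Module.finrank (ZMod 2) V' = n - d := by omega
  rw [Nat.card_congr (homEquiv h W), Nat.card_prod,
    Module.natCard_eq_pow_finrank (K := ZMod 2) (V := V →ₗ[ZMod 2] W),
    Module.natCard_eq_pow_finrank (K := ZMod 2) (V := V' →ₗ[ZMod 2] E m),
    Module.finrank_linearMap, Module.finrank_linearMap, Nat.card_zmod, hV, h2,
    Module.finrank_fin_fun, ← pow_add]
  congr 1
  ring

end Pool.Agent.K3h68.VR
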